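import Mathlib

set_option autoImplicit false

namespace Pool.Agent.Results.MP_081fbf_lc.Terminates

inductive A | a | b | c | d

open A

/-- One rewrite step `u ℓ v → u r v` by a rule `(ℓ, r)` of `T`. -/
def St (T : List (List A × List A)) (x y : List A) : Prop :=
  ∃ p ∈ T, ∃ u v, x = u ++ p.1 ++ v ∧ y = u ++ p.2 ++ v

def R : List (List A × List A) :=
  [([a, d], [d, b]), ([a], [b, b, b]), ([d], []), ([a], []), ([b, c], [c, d, d]),
    ([a, c], [b, b, c, d])]

def S : List (List A × List A) := [([b, d, b], [a, d]), ([a, d], [b, d, b])]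

/-- value of the block before the first `c`, and the values of the later blocks -/
def V : List A → ℕ × List ℕ
  | [] => (0, [])
  | a :: w => ((V w).1 + 4, (V w).2)
  | b :: w => ((V w).1 + 1, (V w).2)
  | d :: w => (3 * (V w).1 + 1, (V w).2)
  | c :: w => (0, (V w).1 :: (V w).2)

def Lt (x y : ℕ × List ℕ) : Prop :=
  x.2.length = y.2.length ∧ (x.1 < y.1 ∨ x.1 = y.1 ∧ List.Lex (· < ·) x.2 y.2)

theorem ctx (u : List A) {x y : List A} : (V x = V y → V (u ++ x) = V (u ++ y)) ∧
    (Lt (V x) (V y) → Lt (V (u ++ x)) (V (u ++ y))) := by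
  induction u with
  | nil => exact ⟨id, id⟩
  | cons z u ih =>
    refine ⟨fun h => by cases z <;> simp [V, ih.1 h], fun h => ?_⟩
    obtain ⟨h1, h2 | ⟨h2, h3⟩⟩ := ih.2 h
    · cases z <;> simp [V, Lt, h1, h2]
      exact .rel h2
    · cases z <;> simp [V, Lt, h1, h2, h3]
      exact h3

theorem wf (n : ℕ) : ∀ l : List ℕ, l.length = n →
    Acc (fun x y : List ℕ => x.length = y.length ∧ List.Lex (· < ·) x y) l := by
  induction n with
  | zero =>
    intro l h
    obtain rfl := List.length_eq_zero_iff.1 h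
    exact ⟨_, fun y hy => by cases hy.2⟩
  | succ n ih =>
    rintro (_ | ⟨k, l⟩) h
    · simp at h
    induction k using Nat.strong_induction_on generalizing l with
    | _ k ik =>
      have := ih l (by simpa using h)
      induction this with
      | intro l _ il =>
        refine ⟨_, fun y hy => ?_⟩
        obtain ⟨h1, h2⟩ := hy
        cases h2 with
        | nil => simp at h1
        | rel h2 => exact ik _ h2 _ (h1.trans h)
        | cons h2 => exact il _ ⟨by simpa using h1, h2⟩ (h1.trans h)

theorem result : ¬ ∃ x : ℕ → List A, (∀ i, St (R ++ S) (x i) (x (i + 1))) ∧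
    ∀ n, ∃ i ≥ n, St R (x i) (x (i + 1)) := by
  rintro ⟨x, h1, h2⟩
  let r := fun x y : List ℕ => x.length = y.length ∧ List.Lex (· < ·) x y
  have tr : ∀ {x y z}, r x y → r y z → r x z := fun a b => ⟨a.1.trans b.1, List.lt_trans a.2 b.2⟩
  let f := fun i => (V (x i)).1 :: (V (x i)).2
  have k1 : ∀ x y, St R x y → r ((V y).1 :: (V y).2) ((V x).1 :: (V x).2) := by
    rintro _ _ ⟨p, hp, u, v, rfl, rfl⟩
    have : Lt (V (p.2 ++ v)) (V (p.1 ++ v)) := by
      simp only [R, List.mem_cons, List.not_mem_nil, or_false] at hp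
      rcases hp with rfl | rfl | rfl | rfl | rfl | rfl <;> simp [V, Lt] <;> omega
    obtain ⟨a, b⟩ := (ctx u).2 this
    rw [List.append_assoc, List.append_assoc]
    exact ⟨by simpa using a, b.elim .rel fun b => b.1 ▸ .cons b.2⟩
  have k2 : ∀ i, f (i + 1) = f i ∨ r (f (i + 1)) (f i) := fun i => by
    obtain ⟨p, hp, u, v, a, b⟩ := h1 i
    rcases List.mem_append.1 hp with hp | hp
    · exact Or.inr (k1 _ _ ⟨p, hp, u, v, a, b⟩)
    · have : V (p.2 ++ v) = V (p.1 ++ v) := by
        simp only [S, List.mem_cons, List.not_mem_nil, or_false] at hp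
        rcases hp with rfl | rfl <;> simp [V] <;> omega
      left
      simp only [f, a, b, List.append_assoc, (ctx u).1 this]
  have k3 : ∀ i j, f (i + j) = f i ∨ r (f (i + j)) (f i) := fun i j => by
    induction j with
    | zero => exact Or.inl rfl
    | succ j ih =>
      rcases k2 (i + j) with e | e
      · exact e ▸ ih
      · exact Or.inr (ih.elim (fun k => k ▸ e) (tr e))
  suffices ∀ l, Acc r l → ∀ i, f i ≠ l from this _ (wf _ _ rfl) 0 rfl
  intro l h
  induction h with
  | intro l _ ih =>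
    rintro i rfl
    obtain ⟨j, hj, e⟩ := h2 i
    obtain ⟨j, rfl⟩ := Nat.exists_eq_add_of_le hj
    exact ih _ ((k3 i j).elim (fun k => k ▸ k1 _ _ e) (tr (k1 _ _ e))) _ rfl

end Pool.Agent.Results.MP_081fbf_lc.Terminates
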